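import Pool.Agent.Helper78K9.GO.Small

set_option autoImplicit false

/-!
# Labelled trees, their orientations, and the Alexander polynomial
-/

namespace Pool.Agent.Helper78K9.GO

open Finset Polynomial

/-- A labelled graph with vertices `V` and edges `E`: the edge `e` joins `a e` and `b e` and has the
label `lab e`. -/
structure LGraph (V E : Type) where
  a : E → V
  b : E → V
  lab : E → V

namespace LGraph

variable {V E : Type} (T : LGraph V E)

/-- `T` is a tree. -/
def IsTree : Prop :=
  (SimpleGraph.fromEdgeSet (Set.range fun e => s(T.a e, T.b e))).Connected ∧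
    Nat.card V = Nat.card E + 1

/-- No edge is labelled by one of its end points. -/
def Compressed : Prop := ∀ e, T.lab e ≠ T.a e ∧ T.lab e ≠ T.b e

/-- the initial vertex of the edge `e` for the orientation `o` -/
def ini (o : E → Bool) (e : E) : V := if o e then T.a e else T.b e

/-- the terminal vertex of the edge `e` for the orientation `o` -/
def ter (o : E → Bool) (e : E) : V := if o e then T.b e else T.a e

/-- The Alexander matrix of the labelled oriented tree `T` with the orientation `o`, without the column
of the vertex `v₀`. -/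
noncomputable def alex [DecidableEq V] (o : E → Bool) {v₀ : V} (σ : E ≃ {v : V // v ≠ v₀}) :
    Matrix E E ℤ[X] := fun e f =>
  (if T.ini o e = σ f then 1 else 0) + (X - 1) * (if T.lab e = σ f then 1 else 0)
    - X * (if T.ter o e = σ f then 1 else 0)

end LGraph

section mt
variable {V E : Type} [DecidableEq V] {v₀ : V} (σ : E ≃ {v : V // v ≠ v₀})

/-- rows `e_x - e_z`, without the column of `v₀` -/
def mt (x z : E → V) : Matrix E E ℤ := fun e f =>
  (if x e = σ f then 1 else 0) - (if z e = σ f then 1 else 0)

variable [Fintype E] [DecidableEq E]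

theorem mt_small (x z : E → V) : (mt σ x z).det = 0 ∨ (mt σ x z).det = 1 ∨ (mt σ x z).det = -1 := by
  classical
  have e := Fintype.equivFin E
  -- the column index of a vertex
  have h : ∀ v : V, ∃ c : Option (Fin (Fintype.card E)), ∀ k, ((v = σ (e.symm k)) ↔ c = some k) := by
    intro v
    by_cases hv : v = v₀
    · refine ⟨none, fun k => ?_⟩
      simp only [reduceCtorEq, iff_false]
      rw [hv]
      exact (σ (e.symm k)).2.symm
    · refine ⟨some (e (σ.symm ⟨v, hv⟩)), fun k => ?_⟩
      rw [Option.some_inj]
      constructor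
      · intro h1
        have h2 : (⟨v, hv⟩ : {v : V // v ≠ v₀}) = σ (e.symm k) := Subtype.ext h1
        rw [h2, Equiv.symm_apply_apply, Equiv.apply_symm_apply]
      · rintro rfl
        rw [Equiv.symm_apply_apply, Equiv.apply_symm_apply]
  choose c hc using h
  have h1 : (mt σ x z).det = (nw (fun i => c (x (e.symm i))) (fun i => c (z (e.symm i)))).det := by
    rw [← Matrix.det_submatrix_equiv_self e.symm]
    congr 1
    ext i j
    simp only [mt, nw, Matrix.submatrix_apply, hc]
  rw [h1]
  exact nw_small _ _ _

omit [DecidableEq E] in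
/-- the function on the vertices -/
lemma sum_ind {R : Type} [CommRing R] (Y : V → R) (hY : Y v₀ = 0) (x : V) :
    ∑ f : E, (if x = σ f then (1 : R) else 0) * Y (σ f) = Y x := by
  by_cases hx : x = v₀
  · rw [hx, hY]
    refine Finset.sum_eq_zero fun f _ => ?_
    rw [if_neg (σ f).2.symm, zero_mul]
  · rw [Finset.sum_eq_single (σ.symm ⟨x, hx⟩)]
    · simp
    · intro f _ hf
      rw [if_neg, zero_mul]
      intro h
      apply hf
      rw [Equiv.eq_symm_apply]
      exact Subtype.ext h.symm
    · intro h; exact absurd (Finset.mem_univ _) h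

theorem mt_indep (x z : E → V) (h : (mt σ x z).det ≠ 0) :
    LinearIndependent ℤ fun e : E => (Finsupp.single (x e) 1 - Finsupp.single (z e) 1 : V →₀ ℤ) := by
  rw [Fintype.linearIndependent_iff]
  intro g hg
  have h2 : Matrix.vecMul g (mt σ x z) = 0 := by
    funext f
    let π : (V →₀ ℤ) →+ ℤ :=
      { toFun := fun u => u (σ f)
        map_zero' := rfl
        map_add' := fun _ _ => rfl }
    have h3 := congrArg π hg
    rw [map_sum, map_zero] at h3
    simp only [Matrix.vecMul, dotProduct, Pi.zero_apply]
    rw [← h3]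
    refine Finset.sum_congr rfl fun e _ => ?_
    rw [map_zsmul, smul_eq_mul]
    congr 1
    change mt σ x z e f = (Finsupp.single (x e) 1 - Finsupp.single (z e) 1 : V →₀ ℤ) (σ f)
    rw [Finsupp.sub_apply, Finsupp.single_apply, Finsupp.single_apply, mt]
  exact fun i => congrFun (Matrix.eq_zero_of_vecMul_eq_zero h h2) i

end mt

section tree
variable {V E : Type} [DecidableEq V] [Fintype E] [DecidableEq E] (T : LGraph V E)
  {v₀ : V} (σ : E ≃ {v : V // v ≠ v₀})

/-- The matrix of the boundary of the tree is nonsingular. -/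
theorem tree_det (hT : T.IsTree) : (mt σ T.a T.b).det ≠ 0 := by
  intro h0
  obtain ⟨y, hy, hy0⟩ := Matrix.exists_mulVec_eq_zero_iff.2 h0
  let Y : V → ℤ := fun v => if h : v ≠ v₀ then y (σ.symm ⟨v, h⟩) else 0
  have hYσ : ∀ f, Y (σ f) = y f := by
    intro f
    simp only [Y]
    rw [dif_pos (σ f).2]
    simp
  have hY0 : Y v₀ = 0 := by simp [Y]
  have hedge : ∀ e, Y (T.a e) = Y (T.b e) := by
    intro e
    have h1 := congrFun hy0 e
    simp only [Matrix.mulVec, dotProduct, mt, Pi.zero_apply, ← hYσ, sub_mul,
      Finset.sum_sub_distrib] at h1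
    rw [sum_ind σ Y hY0, sum_ind σ Y hY0] at h1
    exact sub_eq_zero.1 h1
  have hwalk : ∀ u v, (SimpleGraph.fromEdgeSet (Set.range fun e => s(T.a e, T.b e))).Walk u v →
      Y u = Y v := by
    intro u v w
    induction w with
    | nil => rfl
    | @cons u v w h _ ih =>
      rw [← ih]
      rw [SimpleGraph.fromEdgeSet_adj] at h
      obtain ⟨⟨e, he⟩, -⟩ := h
      simp only at he
      rw [Sym2.eq_iff] at he
      rcases he with ⟨h1, h2⟩ | ⟨h1, h2⟩
      · rw [← h1, ← h2, hedge]
      · rw [← h1, ← h2, hedge]
  have hall : ∀ v, Y v = Y v₀ := by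
    intro v
    obtain ⟨w⟩ := hT.1.preconnected v v₀
    exact hwalk _ _ w
  apply hy
  funext f
  rw [← hYσ, hall, hY0]
  rfl

end tree

end Pool.Agent.Helper78K9.GO
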