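import Pool.Agent.Helper78K9.GO.Comb

set_option autoImplicit false

/-!
# The number of orientations whose initial graph is a tree
-/

namespace Pool.Agent.Helper78K9.GO

open Finset Polynomial

section count
variable {V E : Type} [DecidableEq V] [Fintype E] [DecidableEq E] (T : LGraph V E)
  {v₀ : V} (σ : E ≃ {v : V // v ≠ v₀})

/-- the determinant of the initial graph -/
def WW (o : E → Bool) : ℤ := (mt σ (T.ini o) T.lab).det

/-- the orientation `o₀`, reversed outside of `s` -/
def fl (o₀ : E → Bool) (s : Finset E) : E → Bool := fun e => if e ∈ s then o₀ e else !o₀ e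

omit [DecidableEq V] [Fintype E] in
lemma ini_fl (o₀ : E → Bool) (s : Finset E) (e : E) :
    T.ini (fl o₀ s) e = if e ∈ s then T.ini o₀ e else T.ter o₀ e := by
  unfold fl LGraph.ini LGraph.ter
  by_cases h : e ∈ s <;> cases h2 : o₀ e <;> simp [h, h2]

/-- subsets and orientations -/
def flEquiv (o₀ : E → Bool) : Finset E ≃ (E → Bool) where
  toFun := fl o₀
  invFun o := Finset.univ.filter fun e => o e = o₀ e
  left_inv s := by
    ext e
    by_cases h : e ∈ s <;> simp [fl, h]
  right_inv o := by
    funext e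
    by_cases h : o e = o₀ e
    · simp [fl, h]
    · simp only [fl, Finset.mem_filter, Finset.mem_univ, true_and, if_neg h]
      cases h1 : o e <;> cases h2 : o₀ e <;> simp_all

lemma expand {R : Type} [CommRing R] (o₀ : E → Bool) (α β : E → R) :
    Matrix.det (fun e f => α e * ((mt σ (T.ini o₀) T.lab e f : ℤ) : R) +
      β e * ((mt σ (T.ter o₀) T.lab e f : ℤ) : R)) =
    ∑ s : Finset E, ((∏ e ∈ s, α e) * ∏ e ∈ sᶜ, β e) * ((WW T σ (fl o₀ s) : ℤ) : R) := by
  rw [det_expand (fun e f => ((mt σ (T.ini o₀) T.lab e f : ℤ) : R))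
    (fun e f => ((mt σ (T.ter o₀) T.lab e f : ℤ) : R)) α β]
  refine Finset.sum_congr rfl fun s _ => ?_
  congr 1
  rw [WW, Int.cast_det]
  congr 1
  funext e f
  rw [Matrix.map_apply]
  simp only [mt, ini_fl]
  by_cases h : e ∈ s <;> simp [h]

/-- the orientations whose initial graph is a tree -/
def GI : Finset (E → Bool) := Finset.univ.filter fun o => WW T σ o ≠ 0

lemma WW_cases (o : E → Bool) : WW T σ o = 0 ∨ WW T σ o = 1 ∨ WW T σ o = -1 := mt_small σ _ _

theorem odd_GI (hT : T.IsTree) : Odd (GI T σ).card := by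
  rw [← ZMod.natCast_eq_one_iff_odd]
  have h1 := expand (R := ZMod 2) T σ (fun _ => true) (fun _ => 1) (fun _ => 1)
  have h2 : Matrix.det (fun e f => (1 : ZMod 2) * ((mt σ (T.ini fun _ => true) T.lab e f : ℤ) : ZMod 2) +
      1 * ((mt σ (T.ter fun _ => true) T.lab e f : ℤ) : ZMod 2)) =
      (((mt σ T.a T.b).det : ℤ) : ZMod 2) := by
    rw [Int.cast_det]
    congr 1
    funext e f
    rw [Matrix.map_apply]
    simp only [mt, LGraph.ini, LGraph.ter, if_true, one_mul]
    by_cases h1 : T.a e = σ f <;> by_cases h2 : T.b e = σ f <;> by_cases h3 : T.lab e = σ f <;>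
      simp [h1, h2, h3] <;> decide
  have h3 : (((mt σ T.a T.b).det : ℤ) : ZMod 2) = 1 := by
    rcases mt_small σ T.a T.b with h | h | h
    · exact absurd h (tree_det T σ hT)
    · rw [h]; decide
    · rw [h]; decide
  rw [h2, h3] at h1
  rw [h1, GI, Finset.card_filter, Nat.cast_sum]
  rw [← Equiv.sum_comp (flEquiv fun _ : E => true)]
  refine Finset.sum_congr rfl fun s _ => ?_
  simp only [Finset.prod_const_one, one_mul]
  change _ = ((WW T σ (flEquiv (fun _ : E => true) s) : ℤ) : ZMod 2)
  rcases WW_cases T σ (flEquiv (fun _ : E => true) s) with h | h | h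
  · simp [h]
  · simp [h]
  · rw [h]; decide

theorem two_le_GI [Finite V] [Nonempty E] (hT : T.IsTree) (hc : T.Compressed) :
    2 ≤ (GI T σ).card := by
  classical
  by_contra hlt
  have hodd := odd_GI T σ hT
  have h1 : (GI T σ).card = 1 := by
    obtain ⟨k, hk⟩ := hodd
    omega
  obtain ⟨o₀, ho₀⟩ := Finset.card_eq_one.1 h1
  have hW : WW T σ o₀ ≠ 0 := by
    have : o₀ ∈ GI T σ := by rw [ho₀]; exact Finset.mem_singleton_self _
    exact (Finset.mem_filter.1 this).2
  have hW0 : ∀ o, o ≠ o₀ → WW T σ o = 0 := by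
    intro o ho
    by_contra h
    have : o ∈ GI T σ := Finset.mem_filter.2 ⟨Finset.mem_univ _, h⟩
    rw [ho₀, Finset.mem_singleton] at this
    exact ho this
  -- an injective function
  obtain ⟨n, ⟨en⟩⟩ := Finite.exists_equiv_fin V
  let Y : V → ℤ := fun v => ((en v : ℕ) : ℤ) - ((en v₀ : ℕ) : ℤ)
  have hY0 : Y v₀ = 0 := sub_self _
  have hYinj : ∀ x y, Y x = Y y → x = y := by
    intro x y h
    have h2 : ((en x : ℕ) : ℤ) = ((en y : ℕ) : ℤ) := by
      simp only [Y] at h
      linarith
    exact en.injective (Fin.ext (by exact_mod_cast h2))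
  let α : E → ℤ := fun e => Y (T.ter o₀ e) - Y (T.lab e)
  let β : E → ℤ := fun e => -(Y (T.ini o₀ e) - Y (T.lab e))
  have hα : ∀ e, α e ≠ 0 := by
    intro e h
    have h2 := hYinj _ _ (sub_eq_zero.1 h)
    unfold LGraph.ter at h2
    split_ifs at h2
    · exact (hc e).2 h2.symm
    · exact (hc e).1 h2.symm
  have h2 := expand (R := ℤ) T σ o₀ α β
  have h3 : Matrix.det (fun e f => α e * ((mt σ (T.ini o₀) T.lab e f : ℤ) : ℤ) +
      β e * ((mt σ (T.ter o₀) T.lab e f : ℤ) : ℤ)) = 0 := by
    refine Matrix.exists_mulVec_eq_zero_iff.1 ⟨fun f => Y (σ f), ?_, ?_⟩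
    · intro h
      obtain ⟨f⟩ := ‹Nonempty E›
      have h4 := congrFun h f
      exact (σ f).2 (hYinj _ _ (h4.trans hY0.symm))
    · funext e
      simp only [Matrix.mulVec, dotProduct, mt, Pi.zero_apply, add_mul, mul_assoc,
        sub_mul, Finset.sum_add_distrib, ← Finset.mul_sum, Finset.sum_sub_distrib]
      rw [sum_ind σ Y hY0, sum_ind σ Y hY0, sum_ind σ Y hY0]
      simp only [α, β]
      ring
  simp only [Int.cast_id] at h2
  rw [h3, Finset.sum_eq_single Finset.univ] at h2
  · have h4 : fl o₀ (Finset.univ : Finset E) = o₀ := by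
      funext e
      simp [fl]
    rw [h4, Finset.compl_univ, Finset.prod_empty, mul_one] at h2
    exact (mul_ne_zero (Finset.prod_ne_zero_iff.2 fun e _ => hα e) hW) h2.symm
  · intro s _ hs
    have : fl o₀ s ≠ o₀ := by
      intro h
      apply hs
      apply (flEquiv o₀).injective
      change fl o₀ s = fl o₀ Finset.univ
      rw [h]
      funext e
      simp [fl]
    rw [hW0 _ this, mul_zero]
  · intro h; exact absurd (Finset.mem_univ _) h

/-- The sum of the absolute values of the coefficients of the Alexander polynomial. -/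
theorem alex_le (o₀ : E → Bool) :
    ∑ k ∈ (T.alex o₀ σ).det.support, |(T.alex o₀ σ).det.coeff k| ≤ ((GI T σ).card : ℤ) := by
  classical
  have h1 := expand (R := ℤ[X]) T σ o₀ (fun _ => 1) (fun _ => -X)
  have h2 : Matrix.det (fun e f => (1 : ℤ[X]) * ((mt σ (T.ini o₀) T.lab e f : ℤ) : ℤ[X]) +
      -X * ((mt σ (T.ter o₀) T.lab e f : ℤ) : ℤ[X])) = (T.alex o₀ σ).det := by
    congr 1
    funext e f
    simp only [mt, LGraph.alex]
    push_cast
    ring
  rw [h2] at h1
  have h3 : ∀ k, (T.alex o₀ σ).det.coeff k =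
      ∑ s : Finset E, if sᶜ.card = k then (-1) ^ k * WW T σ (fl o₀ s) else 0 := by
    intro k
    rw [h1, Polynomial.finsetSum_coeff]
    refine Finset.sum_congr rfl fun s _ => ?_
    rw [Finset.prod_const_one, one_mul, Finset.prod_const, ← Polynomial.C_eq_intCast,
      Polynomial.coeff_mul_C, neg_pow, ← Polynomial.C_1, ← Polynomial.C_neg, ← Polynomial.C_pow,
      Polynomial.coeff_C_mul, Polynomial.coeff_X_pow]
    by_cases h : sᶜ.card = k
    · rw [if_pos h, if_pos h.symm, h, mul_one]
      rfl
    · rw [if_neg h, if_neg (Ne.symm h), mul_zero, zero_mul]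
  have h4 : ∀ k, |(T.alex o₀ σ).det.coeff k| ≤
      ∑ s : Finset E, if sᶜ.card = k then |WW T σ (fl o₀ s)| else 0 := by
    intro k
    rw [h3]
    refine (Finset.abs_sum_le_sum_abs _ _).trans (Finset.sum_le_sum fun s _ => ?_)
    split_ifs
    · rw [abs_mul, abs_pow, abs_neg, abs_one, one_pow, one_mul]
    · rw [abs_zero]
  refine (Finset.sum_le_sum fun k _ => h4 k).trans ?_
  rw [Finset.sum_comm]
  have h5 : ∀ s : Finset E, (∑ k ∈ (T.alex o₀ σ).det.support,
      if sᶜ.card = k then |WW T σ (fl o₀ s)| else 0) ≤ |WW T σ (fl o₀ s)| := by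
    intro s
    rw [Finset.sum_ite_eq]
    split_ifs
    · exact le_refl _
    · exact abs_nonneg _
  refine (Finset.sum_le_sum fun s _ => h5 s).trans (le_of_eq ?_)
  rw [GI, Finset.card_filter, Nat.cast_sum, ← Equiv.sum_comp (flEquiv o₀)]
  refine Finset.sum_congr rfl fun s _ => ?_
  change |WW T σ (flEquiv o₀ s)| = _
  rcases WW_cases T σ (flEquiv o₀ s) with h | h | h <;> simp [h]

/-- The number of orientations for which the initial or the terminal graph is a tree. -/
theorem union_even [Nonempty E] :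
    Even ((GI T σ) ∪ (GI T σ).image (fun o e => !o e)).card := by
  classical
  obtain ⟨e₀⟩ := ‹Nonempty E›
  set S := (GI T σ) ∪ (GI T σ).image (fun o e => !o e) with hS
  have hflip : ∀ o ∈ S, (fun e => !o e) ∈ S := by
    intro o ho
    rw [hS, Finset.mem_union, Finset.mem_image] at ho ⊢
    rcases ho with ho | ⟨o', ho', rfl⟩
    · exact Or.inr ⟨o, ho, rfl⟩
    · left
      have h1 : (fun e => !(fun e => !o' e) e) = o' := by
        funext e
        simp
      rw [h1]
      exact ho'
  have h1 : S.card = (S.filter fun o => o e₀ = true).card + (S.filter fun o => ¬ o e₀ = true).card :=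
    (Finset.card_filter_add_card_filter_not _).symm
  have h2 : (S.filter fun o => o e₀ = true).card = (S.filter fun o => ¬ o e₀ = true).card := by
    refine Finset.card_bij (fun o _ e => !o e) ?_ ?_ ?_
    · intro o ho
      rw [Finset.mem_filter] at ho ⊢
      exact ⟨hflip o ho.1, by simp [ho.2]⟩
    · intro o _ o' _ h
      funext e
      have := congrFun h e
      simpa using this
    · intro o ho
      rw [Finset.mem_filter] at ho
      refine ⟨fun e => !o e, ?_, ?_⟩
      · rw [Finset.mem_filter]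
        refine ⟨hflip o ho.1, ?_⟩
        simpa using ho.2
      · funext e
        simp
  rw [h1, ← h2]
  exact ⟨_, rfl⟩

end count

end Pool.Agent.Helper78K9.GO
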