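import Pool.Agent.Helper78K9.GO.Init

set_option autoImplicit false

/-!
# Asphericity of Wirtinger complexes: the initial and the terminal graph
-/

namespace Pool.Agent.Helper78K9.GO

open Function
open Pool.Agent.R655.LI
open Pool.Agent.Helper777.Prof (Wr mag mag_m)

/-- The Wirtinger relator `a l b⁻¹ l⁻¹`. -/
def wirt {V : Type} (a l b : V) : FreeGroup V :=
  FreeGroup.of a * FreeGroup.of l * (FreeGroup.of b)⁻¹ * (FreeGroup.of l)⁻¹

section crit
variable (K : Cx) (a l b : K.R → K.V) (hr : ∀ j, K.r j = wirt (a j) (l j) (b j))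

include hr in
/-- The height: all generators have height `1`. -/
def ht : K.Pi →* Multiplicative ℤ :=
  PresentedGroup.toGroup (f := fun _ => Multiplicative.ofAdd 1) (by
    rintro _ ⟨j, rfl⟩
    rw [hr]
    simp [wirt])

lemma ht_of (v : K.V) : ht K a l b hr (PresentedGroup.of v) = Multiplicative.ofAdd 1 :=
  PresentedGroup.toGroup.of _

include hr in
lemma rel_eq (j : K.R) : (PresentedGroup.of (a j) : K.Pi) * PresentedGroup.of (l j) =
    PresentedGroup.of (l j) * PresentedGroup.of (b j) := by
  have h1 : PresentedGroup.mk (Set.range K.r) (K.r j) = 1 := PresentedGroup.one_of_mem ⟨j, rfl⟩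
  rw [hr, wirt, map_mul, map_mul, map_mul, map_inv, map_inv] at h1
  have h2 : (PresentedGroup.of (a j) : K.Pi) * PresentedGroup.of (l j) *
    (PresentedGroup.of (b j))⁻¹ * (PresentedGroup.of (l j))⁻¹ = 1 := h1
  rw [mul_inv_eq_one, mul_inv_eq_iff_eq_mul] at h2
  exact h2

open Classical in
/-- indicator -/
noncomputable def dl (x v : K.V) : MonoidAlgebra ℤ K.Pi := if x = v then 1 else 0

/-- group elements in the group ring -/
noncomputable abbrev og (x : K.V) : MonoidAlgebra ℤ K.Pi :=
  MonoidAlgebra.of ℤ K.Pi (PresentedGroup.of x)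

include hr in
lemma fox_rel (j : K.R) (v : K.V) : fox K (K.r j) v =
    dl K (a j) v + og K (a j) * dl K (l j) v - og K (l j) * dl K (b j) v - dl K (l j) v := by
  classical
  have key := rel_eq K a l b hr j
  unfold fox
  rw [hr, wirt, map_mul, map_mul, map_mul, map_inv, map_inv]
  simp only [Wr.mul_v, Wr.mul_m, Wr.inv_v, Wr.inv_m, mag, FreeGroup.lift_apply_of, Pi.add_apply,
    Pi.smul_apply, Pi.neg_apply, smul_eq_mul]
  have e1 : ∀ x : K.V, (Pi.single x 1 : K.V → MonoidAlgebra ℤ K.Pi) v = dl K x v := by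
    intro x
    unfold dl
    rw [Pi.single_apply]
    simp only [eq_comm]
  have e2 : ∀ x : K.V, PresentedGroup.mk (Set.range K.r) (FreeGroup.of x) = PresentedGroup.of x :=
    fun _ => rfl
  simp only [e1, e2, mul_neg, ← mul_assoc, ← map_mul]
  have k1 : (PresentedGroup.of (a j) : K.Pi) * PresentedGroup.of (l j) *
      (PresentedGroup.of (b j))⁻¹ = PresentedGroup.of (l j) := by
    rw [key, mul_inv_cancel_right]
  rw [k1, mul_inv_cancel, map_one, one_mul]
  abel

include hr in
theorem asph_ini (hA : LinearIndependent ℤ fun j : K.R =>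
    (Finsupp.single (a j) 1 - Finsupp.single (l j) 1 : K.V →₀ ℤ)) : Asph K := by
  classical
  refine inj_of_init (ht K a l b hr) (fun j : K.R => fox K (K.r j)) _ ?_ hA
  intro j v
  rw [fox_rel K a l b hr]
  have e1 : (MonoidAlgebra.single 1 ((Finsupp.single (a j) 1 - Finsupp.single (l j) 1 : K.V →₀ ℤ) v) :
      MonoidAlgebra ℤ K.Pi) = dl K (a j) v - dl K (l j) v := by
    rw [Finsupp.sub_apply, MonoidAlgebra.single_sub, Finsupp.single_apply, Finsupp.single_apply]
    unfold dl
    congr 1
    · split_ifs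
      · rfl
      · exact MonoidAlgebra.single_zero _
    · split_ifs
      · rfl
      · exact MonoidAlgebra.single_zero _
  rw [e1]
  have e2 : dl K (a j) v + og K (a j) * dl K (l j) v - og K (l j) * dl K (b j) v - dl K (l j) v -
      (dl K (a j) v - dl K (l j) v) = og K (a j) * dl K (l j) v + -(og K (l j) * dl K (b j) v) := by
    abel
  rw [e2]
  have e3 : ∀ x y : K.V, Pos (ht K a l b hr) (og K x * dl K y v) := by
    intro x y
    unfold dl
    split_ifs
    · rw [mul_one]
      refine Pos.single _ ?_ _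
      rw [ht_of]
      rfl
    · rw [mul_zero]
      exact Pos.zero _
  exact Pos.add _ (e3 _ _) (Pos.neg _ (e3 _ _))

include hr in
theorem asph_ter (hA : LinearIndependent ℤ fun j : K.R =>
    (Finsupp.single (l j) 1 - Finsupp.single (b j) 1 : K.V →₀ ℤ)) : Asph K := by
  classical
  set H : K.Pi →* Multiplicative ℤ := (ht K a l b hr)⁻¹ with hH
  have hof : ∀ v : K.V, H (PresentedGroup.of v) = Multiplicative.ofAdd (-1) := by
    intro v
    rw [hH, MonoidHom.inv_apply, ht_of]
    rfl
  let g : K.R → K.Pi := fun j => (PresentedGroup.of (a j) * PresentedGroup.of (l j))⁻¹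
  let F : K.R → K.V → MonoidAlgebra ℤ K.Pi := fun j v =>
    MonoidAlgebra.of ℤ K.Pi (g j) * fox K (K.r j) v * og K v
  have hF : Injective (Finsupp.linearCombination (MonoidAlgebra ℤ K.Pi) F) := by
    refine inj_of_init H F _ ?_ hA
    intro j v
    have e1 : (MonoidAlgebra.single 1 ((Finsupp.single (l j) 1 - Finsupp.single (b j) 1 : K.V →₀ ℤ) v) :
        MonoidAlgebra ℤ K.Pi) = dl K (l j) v - dl K (b j) v := by
      rw [Finsupp.sub_apply, MonoidAlgebra.single_sub, Finsupp.single_apply, Finsupp.single_apply]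
      unfold dl
      congr 1
      · split_ifs
        · rfl
        · exact MonoidAlgebra.single_zero _
      · split_ifs
        · rfl
        · exact MonoidAlgebra.single_zero _
    have comm : ∀ x : K.V, dl K x v * og K v = og K x * dl K x v := by
      intro x
      unfold dl
      split_ifs with h
      · rw [h, one_mul, mul_one]
      · rw [zero_mul, mul_zero]
    have e2 : F j v = MonoidAlgebra.of ℤ K.Pi ((PresentedGroup.of (l j))⁻¹) * dl K (a j) v +
        dl K (l j) v - dl K (b j) v -
        MonoidAlgebra.of ℤ K.Pi (g j * PresentedGroup.of (l j)) * dl K (l j) v := by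
      change MonoidAlgebra.of ℤ K.Pi (g j) * fox K (K.r j) v * og K v = _
      rw [fox_rel K a l b hr]
      have k1 : g j * PresentedGroup.of (a j) * PresentedGroup.of (l j) = 1 := by
        simp [g, mul_assoc]
      have k2 : g j * PresentedGroup.of (l j) * PresentedGroup.of (b j) = 1 := by
        simp only [g]
        rw [rel_eq K a l b hr]
        simp [mul_assoc]
      have k3 : g j * PresentedGroup.of (a j) = (PresentedGroup.of (l j))⁻¹ :=
        eq_inv_of_mul_eq_one_left k1
      have c1 : MonoidAlgebra.of ℤ K.Pi (g j) * dl K (a j) v * og K v =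
          MonoidAlgebra.of ℤ K.Pi ((PresentedGroup.of (l j))⁻¹) * dl K (a j) v := by
        rw [mul_assoc, comm, ← mul_assoc, ← map_mul, k3]
      have c2 : MonoidAlgebra.of ℤ K.Pi (g j) * (og K (a j) * dl K (l j) v) * og K v =
          dl K (l j) v := by
        rw [mul_assoc, mul_assoc, comm, ← mul_assoc, ← mul_assoc, ← map_mul, ← map_mul, k1, map_one,
          one_mul]
      have c3 : MonoidAlgebra.of ℤ K.Pi (g j) * (og K (l j) * dl K (b j) v) * og K v =
          dl K (b j) v := by
        rw [mul_assoc, mul_assoc, comm, ← mul_assoc, ← mul_assoc, ← map_mul, ← map_mul, k2, map_one,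
          one_mul]
      have c4 : MonoidAlgebra.of ℤ K.Pi (g j) * dl K (l j) v * og K v =
          MonoidAlgebra.of ℤ K.Pi (g j * PresentedGroup.of (l j)) * dl K (l j) v := by
        rw [mul_assoc, comm, ← mul_assoc, ← map_mul]
      rw [mul_sub, mul_sub, mul_add, sub_mul, sub_mul, add_mul, c1, c2, c3, c4]
    rw [e1, e2]
    have e3 : MonoidAlgebra.of ℤ K.Pi ((PresentedGroup.of (l j))⁻¹) * dl K (a j) v +
        dl K (l j) v - dl K (b j) v -
        MonoidAlgebra.of ℤ K.Pi (g j * PresentedGroup.of (l j)) * dl K (l j) v -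
        (dl K (l j) v - dl K (b j) v) =
        MonoidAlgebra.of ℤ K.Pi ((PresentedGroup.of (l j))⁻¹) * dl K (a j) v +
        -(MonoidAlgebra.of ℤ K.Pi (g j * PresentedGroup.of (l j)) * dl K (l j) v) := by
      abel
    rw [e3]
    have e4 : ∀ (x : K.Pi) (y : K.V), 1 ≤ (H x).toAdd →
        Pos H (MonoidAlgebra.of ℤ K.Pi x * dl K y v) := by
      intro x y hx
      unfold dl
      split_ifs
      · rw [mul_one]
        exact Pos.single _ hx _
      · rw [mul_zero]
        exact Pos.zero _
    refine Pos.add _ (e4 _ _ ?_) (Pos.neg _ (e4 _ _ ?_))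
    · have : H ((PresentedGroup.of (l j))⁻¹) = Multiplicative.ofAdd 1 := by
        rw [map_inv, hof]
        rfl
      rw [this]
      rfl
    · have : H (g j * PresentedGroup.of (l j)) = Multiplicative.ofAdd 1 := by
        simp only [g]
        rw [map_mul, map_inv, map_mul, hof, hof]
        rfl
      rw [this]
      rfl
  unfold Asph
  rw [injective_iff_map_eq_zero] at hF ⊢
  intro c hc
  let c' : K.R →₀ MonoidAlgebra ℤ K.Pi := Finsupp.onFinset c.support
    (fun j => c j * MonoidAlgebra.of ℤ K.Pi ((g j)⁻¹)) (by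
      intro j hj
      rw [Finsupp.mem_support_iff]
      intro h0
      rw [h0, zero_mul] at hj
      exact hj rfl)
  have h1 : Finsupp.linearCombination (MonoidAlgebra ℤ K.Pi) F c' = 0 := by
    rw [Finsupp.linearCombination_onFinset]
    funext v
    rw [Finset.sum_apply]
    have h2 : ∀ j, ((c j * MonoidAlgebra.of ℤ K.Pi ((g j)⁻¹)) • F j) v =
        (c j * fox K (K.r j) v) * og K v := by
      intro j
      change c j * MonoidAlgebra.of ℤ K.Pi ((g j)⁻¹) *
        (MonoidAlgebra.of ℤ K.Pi (g j) * fox K (K.r j) v * og K v) = _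
      have h3 : MonoidAlgebra.of ℤ K.Pi ((g j)⁻¹) * MonoidAlgebra.of ℤ K.Pi (g j) = 1 := by
        rw [← map_mul, inv_mul_cancel, map_one]
      calc _ = c j * (MonoidAlgebra.of ℤ K.Pi ((g j)⁻¹) * MonoidAlgebra.of ℤ K.Pi (g j)) *
            (fox K (K.r j) v * og K v) := by simp only [mul_assoc]
        _ = _ := by rw [h3, mul_one, mul_assoc]
    rw [Finset.sum_congr rfl fun j _ => h2 j, ← Finset.sum_mul]
    have h4 := congrFun hc v
    rw [Finsupp.linearCombination_apply, Finsupp.sum, Finset.sum_apply] at h4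
    have h5 : ∑ j ∈ c.support, c j * fox K (K.r j) v = 0 := h4
    rw [h5, zero_mul]
    rfl
  have h2 := hF c' h1
  ext1 j
  have h3 : c j * MonoidAlgebra.of ℤ K.Pi ((g j)⁻¹) = 0 := DFunLike.congr_fun h2 j
  have h4 : c j * (MonoidAlgebra.of ℤ K.Pi ((g j)⁻¹) * MonoidAlgebra.of ℤ K.Pi (g j)) = 0 := by
    rw [← mul_assoc, h3, zero_mul]
  rwa [← map_mul, inv_mul_cancel, map_one, mul_one] at h4

end crit

end Pool.Agent.Helper78K9.GO
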