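import Pool.Agent.R655.LI.Asph

set_option autoImplicit false

/-!
# Asphericity by initial and terminal parts

`inj_of_init`: a matrix over the group ring of a group with a height function, whose entries have
an integral part of lowest height, has independent rows if the integral matrix has.
-/

namespace Pool.Agent.Helper78K9.GO

open Function

section init
variable {G : Type} [Group G] (h : G →* Multiplicative ℤ)

/-- all elements of the support have height at least `1` -/
def Pos (x : MonoidAlgebra ℤ G) : Prop := ∀ g, x.coeff g ≠ 0 → 1 ≤ (h g).toAdd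

lemma Pos.zero : Pos h (0 : MonoidAlgebra ℤ G) := by
  intro g hg
  simp at hg

lemma Pos.add {x y : MonoidAlgebra ℤ G} (hx : Pos h x) (hy : Pos h y) : Pos h (x + y) := by
  intro g hg
  by_cases h1 : x.coeff g = 0
  · refine hy g ?_
    intro h2
    apply hg
    rw [MonoidAlgebra.coeff_add, Finsupp.add_apply, h1, h2, add_zero]
  · exact hx g h1

lemma Pos.neg {x : MonoidAlgebra ℤ G} (hx : Pos h x) : Pos h (-x) := by
  intro g hg
  refine hx g ?_
  intro h1
  apply hg
  rw [MonoidAlgebra.coeff_neg, Finsupp.neg_apply, h1, neg_zero]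

lemma Pos.single {g : G} (hg : 1 ≤ (h g).toAdd) (a : ℤ) : Pos h (MonoidAlgebra.single g a) := by
  classical
  intro g' hg'
  rw [MonoidAlgebra.coeff_single, Finsupp.single_apply] at hg'
  split_ifs at hg' with h1
  · rw [← h1]; exact hg
  · exact absurd rfl hg'

/-- The coefficients of a product with a matrix entry. -/
lemma coeff_mul_init (u F : MonoidAlgebra ℤ G) (a : ℤ)
    (hF : Pos h (F - MonoidAlgebra.single 1 a)) (g : G)
    (hu : ∀ g', u.coeff g' ≠ 0 → (h g).toAdd ≤ (h g').toAdd) :
    (u * F).coeff g = u.coeff g * a := by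
  classical
  have h1 : F = MonoidAlgebra.single 1 a + (F - MonoidAlgebra.single 1 a) := by abel
  rw [h1, mul_add, MonoidAlgebra.coeff_add, Finsupp.add_apply, MonoidAlgebra.coeff_mul_single_one]
  have h2 : (u * (F - MonoidAlgebra.single 1 a)).coeff g = 0 := by
    rw [MonoidAlgebra.coeff_mul_apply_left, Finsupp.sum]
    refine Finset.sum_eq_zero fun g' hg' => ?_
    have h3 : u.coeff g' ≠ 0 := Finsupp.mem_support_iff.1 hg'
    by_contra h4
    have h5 := hF _ (right_ne_zero_of_mul h4)
    have h6 := hu g' h3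
    rw [map_mul, map_inv, toAdd_mul, toAdd_inv] at h5
    omega
  rw [h2, add_zero]

theorem inj_of_init {R V : Type} (F : R → V → MonoidAlgebra ℤ G) (A : R → V →₀ ℤ)
    (hF : ∀ j v, Pos h (F j v - MonoidAlgebra.single 1 (A j v)))
    (hA : LinearIndependent ℤ A) :
    Injective (Finsupp.linearCombination (MonoidAlgebra ℤ G) F) := by
  classical
  rw [injective_iff_map_eq_zero]
  intro c hc
  by_contra hne
  -- the support of all coefficients
  have hS : (c.support.biUnion fun j => (c j).coeff.support).Nonempty := by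
    obtain ⟨j, hj⟩ := Finsupp.ne_iff.1 hne
    have hj' : (c j).coeff ≠ 0 := by
      intro h0
      exact hj (MonoidAlgebra.coeff_eq_zero.1 h0)
    obtain ⟨g, hg⟩ := Finsupp.ne_iff.1 hj'
    exact ⟨g, Finset.mem_biUnion.2 ⟨j, Finsupp.mem_support_iff.2 hj, Finsupp.mem_support_iff.2 hg⟩⟩
  obtain ⟨g, hg, hmin⟩ := Finset.exists_min_image _ (fun g => (h g).toAdd) hS
  obtain ⟨j₀, hj₀, hg₀⟩ := Finset.mem_biUnion.1 hg
  have hmin' : ∀ j g', (c j).coeff g' ≠ 0 → (h g).toAdd ≤ (h g').toAdd := by
    intro j g' hg'
    refine hmin g' (Finset.mem_biUnion.2 ⟨j, ?_, Finsupp.mem_support_iff.2 hg'⟩)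
    rw [Finsupp.mem_support_iff]
    intro h0
    rw [h0] at hg'
    exact hg' rfl
  -- the coefficients at `g`
  let d : R →₀ ℤ := c.mapRange (fun x => x.coeff g) (by simp)
  have hd : Finsupp.linearCombination ℤ A d = 0 := by
    ext v
    have h1 := congrArg (fun x : MonoidAlgebra ℤ G => x.coeff g) (congrFun hc v)
    simp only [Pi.zero_apply, MonoidAlgebra.coeff_zero, Finsupp.coe_zero] at h1
    rw [Finsupp.linearCombination_apply, Finsupp.sum, Finset.sum_apply, MonoidAlgebra.coeff_sum,
      Finsupp.finsetSum_apply] at h1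
    have h2 : Finsupp.linearCombination ℤ A d = c.sum fun j x => x.coeff g • A j := by
      rw [Finsupp.linearCombination_apply]
      exact Finsupp.sum_mapRange_index (fun j => zero_smul ℤ (A j))
    rw [h2, Finsupp.sum, Finsupp.finsetSum_apply, Finsupp.coe_zero, Pi.zero_apply, ← h1]
    refine Finset.sum_congr rfl fun j _ => ?_
    rw [Pi.smul_apply, smul_eq_mul, coeff_mul_init h (c j) (F j v) (A j v) (hF j v) g (hmin' j)]
    rfl
  have h2 := (linearIndependent_iff.1 hA) d hd
  have h3 : (c j₀).coeff g = 0 := by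
    exact DFunLike.congr_fun h2 j₀
  exact (Finsupp.mem_support_iff.1 hg₀) h3

end init

end Pool.Agent.Helper78K9.GO
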