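import Pool.Agent.Helper78K9.GO.Crit

set_option autoImplicit false

/-!
# Subcomplexes of Wirtinger complexes
-/

namespace Pool.Agent.Helper78K9.GO

open Function
open Pool.Agent.R655.LI

section range
variable {V W : Type}

open Classical in
/-- kill the letter `x` -/
noncomputable def kill (x : V) : FreeGroup V →* FreeGroup V :=
  FreeGroup.lift fun y => if y = x then 1 else FreeGroup.of y

lemma kill_self (x : V) : kill x (FreeGroup.of x) = 1 := by
  classical
  simp [kill]

lemma kill_of {x y : V} (h : y ≠ x) : kill x (FreeGroup.of y) = FreeGroup.of y := by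
  classical
  simp [kill, h]

lemma kill_map (f : W → V) (x : V) (hx : x ∉ Set.range f) (w : FreeGroup W) :
    kill x (FreeGroup.map f w) = FreeGroup.map f w := by
  have : (kill x).comp (FreeGroup.map f) = FreeGroup.map f := by
    ext1 y
    rw [MonoidHom.comp_apply, FreeGroup.map.of, kill_of]
    rintro rfl
    exact hx ⟨y, rfl⟩
  exact DFunLike.congr_fun this w

lemma of_ne_one (x : V) : (FreeGroup.of x : FreeGroup V) ≠ 1 := FreeGroup.of_ne_one x

lemma comm_eq {x y : V} (h : FreeGroup.of x * FreeGroup.of y = FreeGroup.of y * FreeGroup.of x) :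
    x = y := by
  classical
  by_contra hne
  let f : FreeGroup V →* Equiv.Perm (Fin 3) :=
    FreeGroup.lift fun z => if z = x then Equiv.swap 0 1 else Equiv.swap 1 2
  have h1 := congrArg f h
  rw [map_mul, map_mul] at h1
  have hx : f (FreeGroup.of x) = Equiv.swap 0 1 := by simp [f]
  have hy : f (FreeGroup.of y) = Equiv.swap 1 2 := by
    simp only [f, FreeGroup.lift_apply_of]
    rw [if_neg (Ne.symm hne)]
  rw [hx, hy] at h1
  revert h1
  decide

lemma mem_range {f : W → V} {w : FreeGroup W} {a l b : V} (hal : a ≠ l) (hlb : l ≠ b) (hab : a ≠ b)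
    (h : FreeGroup.map f w = wirt a l b) : a ∈ Set.range f ∧ l ∈ Set.range f ∧ b ∈ Set.range f := by
  refine ⟨?_, ?_, ?_⟩
  · by_contra hx
    have h1 := kill_map f a hx w
    rw [h, wirt, map_mul, map_mul, map_mul, map_inv, map_inv, kill_self, kill_of hal.symm,
      kill_of hab.symm, mul_assoc, mul_assoc, mul_assoc, mul_assoc, one_mul] at h1
    exact of_ne_one a (mul_eq_right.1 h1.symm)
  · by_contra hx
    have h1 := kill_map f l hx w
    rw [h, wirt, map_mul, map_mul, map_mul, map_inv, map_inv, kill_self, kill_of hal,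
      kill_of hlb.symm, inv_one, mul_one, mul_one, mul_assoc, mul_assoc] at h1
    have h2 := mul_left_cancel h1
    have h3 : FreeGroup.of b * FreeGroup.of l = FreeGroup.of l * FreeGroup.of b := by
      have h4 := congrArg (fun z => FreeGroup.of b * z * (FreeGroup.of l * FreeGroup.of b)) h2
      simp only [mul_assoc, inv_mul_cancel_left, mul_inv_cancel_left] at h4
      simpa using h4.symm
    exact hlb (comm_eq h3).symm
  · by_contra hx
    have h1 := kill_map f b hx w
    rw [h, wirt, map_mul, map_mul, map_mul, map_inv, map_inv, kill_self, kill_of hab,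
      kill_of hlb, inv_one, mul_one, mul_inv_cancel_right, mul_assoc, mul_assoc] at h1
    have h2 : FreeGroup.of l * ((FreeGroup.of b)⁻¹ * (FreeGroup.of l)⁻¹) = 1 :=
      (mul_eq_left.1 h1.symm)
    rw [← mul_assoc, mul_inv_eq_one, mul_eq_left] at h2
    exact of_ne_one b (inv_eq_one.1 h2)

lemma map_inj' {f : W → V} (hf : Injective f) : Injective (FreeGroup.map f) :=
  FreeGroup.map_injective hf

end range

section sub
variable {K' K : Cx} (i : Sub K' K) (a l b : K.R → K.V)
  (hr : ∀ j, K.r j = wirt (a j) (l j) (b j)) (hne : ∀ j, a j ≠ l j ∧ l j ≠ b j ∧ a j ≠ b j)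

include hr hne in
lemma exists_sub : ∃ a' l' b' : K'.R → K'.V, (∀ j, K'.r j = wirt (a' j) (l' j) (b' j)) ∧
    ∀ j, i.v (a' j) = a (i.c j) ∧ i.v (l' j) = l (i.c j) ∧ i.v (b' j) = b (i.c j) := by
  have h : ∀ j, ∃ a' l' b' : K'.V, K'.r j = wirt a' l' b' ∧
      i.v a' = a (i.c j) ∧ i.v l' = l (i.c j) ∧ i.v b' = b (i.c j) := by
    intro j
    obtain ⟨h1, h2, h3⟩ := hne (i.c j)
    have h4 := i.comm j
    rw [hr] at h4
    obtain ⟨⟨a', ha⟩, ⟨l', hl⟩, ⟨b', hb⟩⟩ := mem_range h1 h2 h3 h4
    refine ⟨a', l', b', ?_, ha, hl, hb⟩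
    apply map_inj' i.v.injective
    rw [h4, ← ha, ← hl, ← hb]
    simp [wirt]
  choose a' l' b' h1 h2 using h
  exact ⟨a', l', b', h1, h2⟩

lemma indep_sub (x y : K.R → K.V) (x' y' : K'.R → K'.V) (hx : ∀ j, i.v (x' j) = x (i.c j))
    (hy : ∀ j, i.v (y' j) = y (i.c j))
    (hA : LinearIndependent ℤ fun j : K.R =>
      (Finsupp.single (x j) 1 - Finsupp.single (y j) 1 : K.V →₀ ℤ)) :
    LinearIndependent ℤ fun j : K'.R =>
      (Finsupp.single (x' j) 1 - Finsupp.single (y' j) 1 : K'.V →₀ ℤ) := by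
  have h1 := hA.comp i.c i.c.injective
  refine LinearIndependent.of_comp (Finsupp.lmapDomain ℤ ℤ i.v) ?_
  convert h1 using 1
  · funext j
    simp only [comp_apply, map_sub, Finsupp.lmapDomain_apply, Finsupp.mapDomain_single, hx, hy]
  · exact Subsingleton.elim _ _

include i hr hne in
theorem asph_sub_ini (hA : LinearIndependent ℤ fun j : K.R =>
    (Finsupp.single (a j) 1 - Finsupp.single (l j) 1 : K.V →₀ ℤ)) : Asph K' := by
  obtain ⟨a', l', b', h1, h2⟩ := exists_sub i a l b hr hne
  exact asph_ini K' a' l' b' h1 (indep_sub i a l a' l' (fun j => (h2 j).1) (fun j => (h2 j).2.1) hA)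

include i hr hne in
theorem asph_sub_ter (hA : LinearIndependent ℤ fun j : K.R =>
    (Finsupp.single (l j) 1 - Finsupp.single (b j) 1 : K.V →₀ ℤ)) : Asph K' := by
  obtain ⟨a', l', b', h1, h2⟩ := exists_sub i a l b hr hne
  exact asph_ter K' a' l' b' h1 (indep_sub i l b l' b' (fun j => (h2 j).2.1) (fun j => (h2 j).2.2) hA)

end sub

end Pool.Agent.Helper78K9.GO
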