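import Pool.Agent.Helper78K9.GO.Count
import Pool.Agent.Helper78K9.GO.Subc

set_option autoImplicit false

/-!
# Every labelled tree has at least four good orientations
-/

namespace Pool.Agent.Helper78K9.GO

open Function Finset Polynomial
open Pool.Agent.R655.LI

/-- All subcomplexes of `K` are aspherical. -/
def AllAsph (K : Cx) : Prop := ∀ (K' : Cx) (_ : Sub K' K), Asph K'

namespace LGraph
variable {V E : Type} (T : LGraph V E)

/-- The 2-complex of the labelled oriented graph: generators `V` and the relators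
`i(e) λ(e) t(e)⁻¹ λ(e)⁻¹`. -/
def cx (o : E → Bool) : Cx where
  V := V
  R := E
  r e := wirt (T.ini o e) (T.lab e) (T.ter o e)

/-- The complex `T.cx o` with one more 2-cell, attached along the generator `v₀`. -/
def plus (o : E → Bool) (v₀ : V) : Cx where
  V := V
  R := Option E
  r e := e.elim (FreeGroup.of v₀) fun e => wirt (T.ini o e) (T.lab e) (T.ter o e)

/-- `T.cx o` is a subcomplex of `T.plus o v₀`. -/
def incl (o : E → Bool) (v₀ : V) : Sub (T.cx o) (T.plus o v₀) where
  v := Embedding.refl _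
  c := Embedding.some
  comm j := by
    change FreeGroup.map id _ = _
    rw [FreeGroup.map.id]
    rfl

variable {T}

lemma ends (o : E → Bool) (e : E) : s(T.ini o e, T.ter o e) = s(T.a e, T.b e) := by
  unfold ini ter
  split_ifs
  · rfl
  · exact Sym2.eq_swap

lemma ne_ends (hc : T.Compressed) (o : E → Bool) (e : E) :
    T.ini o e ≠ T.lab e ∧ T.lab e ≠ T.ter o e := by
  unfold ini ter
  split_ifs
  · exact ⟨(hc e).1.symm, (hc e).2⟩
  · exact ⟨(hc e).2.symm, (hc e).1⟩

end LGraph

section main
variable {V E : Type} (T : LGraph V E)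

/-- the tree with the orientation `o` -/
def ori (o : E → Bool) : LGraph V E := ⟨T.ini o, T.ter o, T.lab⟩

lemma ori_tree (hT : T.IsTree) (o : E → Bool) : (ori T o).IsTree := by
  refine ⟨?_, hT.2⟩
  have h : (fun e => s((ori T o).a e, (ori T o).b e)) = fun e => s(T.a e, T.b e) := by
    funext e
    exact LGraph.ends o e
  rw [h]
  exact hT.1

lemma exists_equiv [Finite V] [Finite E] (hT : T.IsTree) (v₀ : V) :
    Nonempty (E ≃ {v : V // v ≠ v₀}) := by
  classical
  have := Fintype.ofFinite V
  have := Fintype.ofFinite E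
  refine Fintype.card_eq.1 ?_
  have h1 := hT.2
  rw [Nat.card_eq_fintype_card, Nat.card_eq_fintype_card] at h1
  have h2 : Fintype.card {v : V // v ≠ v₀} = Fintype.card V - 1 := by
    rw [Fintype.card_subtype_compl, Fintype.card_subtype_eq]
  rw [h2, h1, Nat.add_sub_cancel]

/-- the edges of a tree are not loops -/
lemma ne_of_tree [Finite V] [Finite E] (hT : T.IsTree) (e : E) : T.a e ≠ T.b e := by
  classical
  have := Fintype.ofFinite E
  intro h
  obtain ⟨σ⟩ := exists_equiv T hT (T.a e)
  refine tree_det T σ hT ?_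
  refine Matrix.det_eq_zero_of_row_eq_zero e fun f => ?_
  simp [mt, h]

lemma expSum_wirt (a l b : V) : (expSum V (wirt a l b)).toAdd =
    Finsupp.single a 1 - Finsupp.single b 1 := by
  have h : ∀ x : V, expSum V (FreeGroup.of x) = Multiplicative.ofAdd (Finsupp.single x 1) := by
    intro x
    simp only [expSum, FreeGroup.lift_apply_of]
  rw [wirt, (expSum V).map_mul, (expSum V).map_mul, (expSum V).map_mul, (expSum V).map_inv,
    (expSum V).map_inv, h, h, h]
  simp only [toAdd_mul, toAdd_inv, toAdd_ofAdd]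
  abel

theorem inj_lin [Finite V] [Finite E] (hT : T.IsTree) (o : E → Bool) (v₀ : V)
    (F : Option E → V →₀ ℤ) (hF0 : F none = Finsupp.single v₀ 1)
    (hF : ∀ e, F (some e) = Finsupp.single (T.ini o e) 1 - Finsupp.single (T.ter o e) 1) :
    Injective (Finsupp.linearCombination ℤ F) := by
  classical
  have := Fintype.ofFinite E
  obtain ⟨σ⟩ := exists_equiv T hT v₀
  have hdet : (mt σ (T.ini o) (T.ter o)).det ≠ 0 := tree_det (ori T o) σ (ori_tree T hT o)
  rw [injective_iff_map_eq_zero]
  intro c hc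
  have hval : ∀ v, c none * (if v₀ = v then 1 else 0) + ∑ e : E, c (some e) *
      ((if T.ini o e = v then 1 else 0) - (if T.ter o e = v then 1 else 0)) = 0 := by
    intro v
    have h1 := DFunLike.congr_fun hc v
    have h2 : Finsupp.linearCombination ℤ F c = ∑ j : Option E, c j • F j := by
      rw [Finsupp.linearCombination_apply]
      exact Finsupp.sum_fintype c _ (fun j => zero_smul ℤ _)
    rw [h2, Fintype.sum_option, hF0, Finsupp.add_apply, Finsupp.finsetSum_apply] at h1
    simp only [hF, Finsupp.smul_apply, Finsupp.sub_apply, Finsupp.single_apply, smul_eq_mul] at h1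
    exact h1
  have hsome : ∀ e, c (some e) = 0 := by
    have h1 : Matrix.vecMul (fun e => c (some e)) (mt σ (T.ini o) (T.ter o)) = 0 := by
      funext f
      have h2 := hval (σ f)
      rw [if_neg (σ f).2.symm, mul_zero, zero_add] at h2
      exact h2
    exact fun e => congrFun (Matrix.eq_zero_of_vecMul_eq_zero hdet h1) e
  have hnone : c none = 0 := by
    have h1 := hval v₀
    rw [if_pos rfl, mul_one] at h1
    simpa [hsome] using h1
  ext j
  rcases j with _ | j
  · exact hnone
  · exact hsome j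

theorem plus_bdry [Finite V] [Finite E] (hT : T.IsTree) (o : E → Bool) (v₀ : V) :
    Injective (T.plus o v₀).bdry := by
  refine inj_lin T hT o v₀ (fun j => (expSum V ((T.plus o v₀).r j)).toAdd) ?_ ?_
  · change (expSum V (FreeGroup.of v₀)).toAdd = _
    simp only [expSum, FreeGroup.lift_apply_of, toAdd_ofAdd]
  · intro e
    exact expSum_wirt _ _ _

theorem triv_pi (hT : T.IsTree) (o : E → Bool) (v₀ : V) (R : Set (FreeGroup V))
    (h0 : FreeGroup.of v₀ ∈ R) (hR : ∀ e, wirt (T.ini o e) (T.lab e) (T.ter o e) ∈ R)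
    (x : PresentedGroup R) : x = 1 := by
  have h0 : (PresentedGroup.of v₀ : PresentedGroup R) = 1 := PresentedGroup.one_of_mem h0
  have hrel : ∀ e, (PresentedGroup.of (T.ini o e) : PresentedGroup R) * PresentedGroup.of (T.lab e) *
      (PresentedGroup.of (T.ter o e))⁻¹ * (PresentedGroup.of (T.lab e))⁻¹ = 1 := by
    intro e
    have h1 : PresentedGroup.mk R (wirt (T.ini o e) (T.lab e) (T.ter o e)) = 1 :=
      PresentedGroup.one_of_mem (hR e)
    exact h1
  have hwalk : ∀ u v, (SimpleGraph.fromEdgeSet (Set.range fun e => s(T.a e, T.b e))).Walk u v →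
      (PresentedGroup.of u : PresentedGroup R) = 1 → (PresentedGroup.of v : PresentedGroup R) = 1 := by
    intro u v w
    induction w with
    | nil => exact id
    | @cons u v w h _ ih =>
      intro hu
      refine ih ?_
      rw [SimpleGraph.fromEdgeSet_adj] at h
      obtain ⟨⟨e, he⟩, -⟩ := h
      simp only at he
      have hr := hrel e
      rw [← LGraph.ends (T := T) o e, Sym2.eq_iff] at he
      rcases he with ⟨h1, h2⟩ | ⟨h1, h2⟩
      · rw [h1, h2, hu] at hr
        simpa using hr
      · rw [h1, h2, hu] at hr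
        simpa using hr
  have hall : ∀ v, (PresentedGroup.of v : PresentedGroup R) = 1 := by
    intro v
    obtain ⟨w⟩ := hT.1.preconnected v₀ v
    exact hwalk _ _ w h0
  have hid : MonoidHom.id (PresentedGroup R) = 1 := by
    apply PresentedGroup.ext
    intro a
    simp [hall a]
  exact DFunLike.congr_fun hid x

theorem plus_pi (hT : T.IsTree) (o : E → Bool) (v₀ : V) (x : (T.plus o v₀).Pi) : x = 1 :=
  triv_pi T hT o v₀ (Set.range (T.plus o v₀).r) ⟨none, rfl⟩ (fun e => ⟨some e, rfl⟩) x

variable [Finite V] [Fintype E] [DecidableEq V] [DecidableEq E]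

theorem good_of_GI (hT : T.IsTree) (hc : T.Compressed) {v₀ : V} (σ : E ≃ {v : V // v ≠ v₀})
    (o : E → Bool) (ho : WW T σ o ≠ 0) : AllAsph (T.cx o) := by
  intro K' i
  refine asph_sub_ini i (T.ini o) T.lab (T.ter o) (fun _ => rfl) ?_ (mt_indep σ _ _ ho)
  intro e
  exact ⟨(LGraph.ne_ends hc o e).1, (LGraph.ne_ends hc o e).2, ne_of_tree (ori T o) (ori_tree T hT o) e⟩

theorem good_of_flip (hT : T.IsTree) (hc : T.Compressed) {v₀ : V} (σ : E ≃ {v : V // v ≠ v₀})
    (o : E → Bool) (ho : WW T σ o ≠ 0) : AllAsph (T.cx fun e => !o e) := by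
  intro K' i
  have h1 : T.ter (fun e => !o e) = T.ini o := by
    funext e
    unfold LGraph.ter LGraph.ini
    cases h : o e <;> simp [h]
  have h2 : (mt σ T.lab (T.ini o)).det ≠ 0 := by
    have : mt σ T.lab (T.ini o) = -mt σ (T.ini o) T.lab := by
      ext e f
      simp [mt]
    rw [this, Matrix.det_neg]
    exact mul_ne_zero (pow_ne_zero _ (by norm_num)) ho
  refine asph_sub_ter i (T.ini fun e => !o e) T.lab (T.ter fun e => !o e) (fun _ => rfl) ?_ ?_
  · intro e
    exact ⟨(LGraph.ne_ends hc _ e).1, (LGraph.ne_ends hc _ e).2,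
      ne_of_tree (ori T fun e => !o e) (ori_tree T hT fun e => !o e) e⟩
  · rw [h1]
    exact mt_indep σ _ _ h2

theorem count_good [Nonempty E] (hT : T.IsTree) (hc : T.Compressed) {v₀ : V}
    (σ : E ≃ {v : V // v ≠ v₀}) :
    (GI T σ).card + 1 ≤ Nat.card {o : E → Bool // AllAsph (T.cx o)} := by
  classical
  have h1 : ((GI T σ) ∪ (GI T σ).image (fun o e => !o e)).card ≤
      Nat.card {o : E → Bool // AllAsph (T.cx o)} := by
    rw [Nat.card_eq_fintype_card, Fintype.card_subtype]
    refine Finset.card_le_card fun o ho => ?_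
    rw [Finset.mem_filter]
    refine ⟨Finset.mem_univ _, ?_⟩
    rw [Finset.mem_union, Finset.mem_image] at ho
    rcases ho with ho | ⟨o', ho', rfl⟩
    · exact good_of_GI T hT hc σ o (Finset.mem_filter.1 ho).2
    · exact good_of_flip T hT hc σ o' (Finset.mem_filter.1 ho').2
  refine le_trans ?_ h1
  have h2 : (GI T σ).card ≤ ((GI T σ) ∪ (GI T σ).image (fun o e => !o e)).card :=
    Finset.card_le_card Finset.subset_union_left
  have h3 := union_even T σ
  have h4 := odd_GI T σ hT
  rcases h2.lt_or_eq with h5 | h5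
  · exact h5
  · rw [← h5] at h3
    exact absurd h3 (Nat.not_even_iff_odd.2 h4)

theorem main [Nonempty E] (hT : T.IsTree) (hc : T.Compressed) :
    (∀ (o : E → Bool) (v₀ : V), (T.plus o v₀).Contractible ∧ (T.plus o v₀).IsFin ∧
      Nonempty (Sub (T.cx o) (T.plus o v₀))) ∧
    4 ≤ Nat.card {o : E → Bool // AllAsph (T.cx o)} ∧
    ∀ (o : E → Bool) (v₀ : V) (σ : E ≃ {v : V // v ≠ v₀}),
      1 + ∑ k ∈ (T.alex o σ).det.support, |(T.alex o σ).det.coeff k| ≤
        (Nat.card {o : E → Bool // AllAsph (T.cx o)} : ℤ) := by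
  refine ⟨fun o v₀ => ⟨⟨plus_pi T hT o v₀, plus_bdry T hT o v₀⟩, ⟨‹Finite V›, ?_⟩,
    ⟨T.incl o v₀⟩⟩, ?_, ?_⟩
  · exact (inferInstance : Finite (Option E))
  · obtain ⟨e⟩ := ‹Nonempty E›
    have : Nonempty E := ⟨e⟩
    obtain ⟨σ⟩ := exists_equiv T hT (T.a e)
    have h1 := count_good T hT hc σ
    have h2 := two_le_GI T σ hT hc
    obtain ⟨k, hk⟩ := odd_GI T σ hT
    omega
  · intro o v₀ σ
    have h1 := count_good T hT hc σ
    have h2 := alex_le T σ o
    have h3 : (((GI T σ).card + 1 : ℕ) : ℤ) ≤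
        ((Nat.card {o : E → Bool // AllAsph (T.cx o)} : ℕ) : ℤ) := by exact_mod_cast h1
    push_cast at h3
    linarith

end main

end Pool.Agent.Helper78K9.GO
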