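import Mathlib

set_option autoImplicit false

/-!
# Determinants of network matrices; expansion of a determinant in the rows
-/

namespace Pool.Agent.Helper78K9.GO

open Finset

/-- the matrix with rows `e_{p i} - e_{q i}`, `e_none = 0` -/
def nw {n : ℕ} (p q : Fin n → Option (Fin n)) : Matrix (Fin n) (Fin n) ℤ :=
  fun i j => (if p i = some j then 1 else 0) - (if q i = some j then 1 else 0)

lemma nw_swap {n : ℕ} (p q : Fin n → Option (Fin n)) : nw q p = -nw p q := by
  ext i j
  simp [nw]

lemma restr {n : ℕ} (a : Fin (n + 1)) (x : Option (Fin (n + 1))) :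
    ∃ y : Option (Fin n), ∀ m, (x = some (a.succAbove m) ↔ y = some m) := by
  rcases x with _ | x
  · exact ⟨none, fun m => by simp⟩
  · by_cases h : x = a
    · refine ⟨none, fun m => ?_⟩
      subst h
      simp [(Fin.succAbove_ne x m).symm]
    · obtain ⟨y, hy⟩ := Fin.exists_succAbove_eq h
      refine ⟨some y, fun m => ?_⟩
      rw [Option.some_inj, Option.some_inj, ← hy]
      exact (Fin.succAbove_right_injective.eq_iff)

theorem nw_small : ∀ (n : ℕ) (p q : Fin n → Option (Fin n)),
    (nw p q).det = 0 ∨ (nw p q).det = 1 ∨ (nw p q).det = -1 := by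
  intro n
  induction n with
  | zero => intro p q; simp
  | succ n ih =>
    -- a row with one nonzero entry
    have key : ∀ (p q : Fin (n + 1) → Option (Fin (n + 1))) (i a : Fin (n + 1)), p i = some a →
        q i = none → (nw p q).det = 0 ∨ (nw p q).det = 1 ∨ (nw p q).det = -1 := by
      intro p q i a hp hq
      choose p' hp' using fun k => restr a (p (i.succAbove k))
      choose q' hq' using fun k => restr a (q (i.succAbove k))
      have h1 : (nw p q).submatrix i.succAbove a.succAbove = nw p' q' := by
        ext k m
        simp only [nw, Matrix.submatrix_apply, hp', hq']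
      have h2 : (nw p q).det = (-1) ^ ((i : ℕ) + a) * (nw p' q').det := by
        rw [Matrix.det_succ_row _ i, Finset.sum_eq_single a]
        · rw [h1]
          simp [nw, hp, hq]
        · intro j _ hj
          have : nw p q i j = 0 := by simp [nw, hp, hq, hj.symm]
          rw [this, mul_zero, zero_mul]
        · intro h; exact absurd (Finset.mem_univ _) h
      rw [h2]
      rcases neg_one_pow_eq_or ℤ ((i : ℕ) + a) with h3 | h3 <;> rw [h3] <;>
        rcases ih p' q' with h4 | h4 | h4 <;> rw [h4] <;> simp
    intro p q
    by_cases h : ∃ i, p i ≠ q i ∧ (p i = none ∨ q i = none)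
    · obtain ⟨i, h1, h2⟩ := h
      rcases h2 with h2 | h2
      · have h3 : q i ≠ none := fun h => h1 (h2.trans h.symm)
        obtain ⟨a, ha⟩ := Option.ne_none_iff_exists'.1 h3
        have h4 := key q p i a ha h2
        rw [nw_swap, Matrix.det_neg] at h4
        rcases neg_one_pow_eq_or ℤ (Fintype.card (Fin (n + 1))) with h5 | h5 <;> rw [h5] at h4 <;>
          omega
      · have h3 : p i ≠ none := fun h => h1 (h.trans h2.symm)
        obtain ⟨a, ha⟩ := Option.ne_none_iff_exists'.1 h3
        exact key p q i a ha h2
    · left
      push Not at h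
      refine Matrix.exists_mulVec_eq_zero_iff.1 ⟨fun _ => 1, ?_, ?_⟩
      · intro h0
        exact one_ne_zero (congrFun h0 0)
      · funext i
        simp only [Matrix.mulVec, dotProduct, nw, mul_one, Finset.sum_sub_distrib, Pi.zero_apply]
        by_cases h1 : p i = q i
        · rw [h1, sub_self]
        · obtain ⟨h2, h3⟩ := h i h1
          obtain ⟨a, ha⟩ := Option.ne_none_iff_exists'.1 h2
          obtain ⟨b, hb⟩ := Option.ne_none_iff_exists'.1 h3
          simp [ha, hb]

section expand
variable {E R : Type} [Fintype E] [DecidableEq E] [CommRing R]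

theorem det_expand (P Q : Matrix E E R) (α β : E → R) :
    Matrix.det (fun e f => α e * P e f + β e * Q e f) =
      ∑ s : Finset E, ((∏ e ∈ s, α e) * ∏ e ∈ sᶜ, β e) *
        Matrix.det (fun e f => if e ∈ s then P e f else Q e f) := by
  have h1 := (Matrix.detRowAlternating (n := E) (R := R)).toMultilinearMap.map_add_univ
    (fun e => α e • P e) (fun e => β e • Q e)
  have h2 : Matrix.det (fun e f => α e * P e f + β e * Q e f) =
      (Matrix.detRowAlternating (n := E) (R := R)).toMultilinearMap
        ((fun e => α e • P e) + fun e => β e • Q e) := rfl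
  rw [h2, h1]
  refine Finset.sum_congr rfl fun s _ => ?_
  have h3 : (s.piecewise (fun e => α e • P e) fun e => β e • Q e) =
      fun e => (s.piecewise α β e) • (fun e f => if e ∈ s then P e f else Q e f) e := by
    funext e
    by_cases he : e ∈ s
    · simp only [Finset.piecewise_eq_of_mem _ _ _ he, he, if_true]
    · simp only [Finset.piecewise_eq_of_notMem _ _ _ he, he, if_false]
  rw [h3, MultilinearMap.map_smul_univ, smul_eq_mul]
  congr 1
  rw [Finset.prod_piecewise, Finset.univ_inter, Finset.compl_eq_univ_sdiff]

end expand

end Pool.Agent.Helper78K9.GO
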